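import Pool.Agent.Work.MP_0d206b_gt.Asm.U
import Pool.Agent.Work.MP_0d206b_gt.Asm.Cech
import Pool.Agent.Work.MP_0d206b_gt.Asm.Compat
import Pool.Agent.Work.MP_0d206b_gt.Bd.StL
import Pool.Agent.Work.MP_0d206b_gt.Bd.L8
import Pool.Agent.Work.MP_0d206b_gt.Bd.L6
import Pool.Agent.Work.MP_0d206b_gt.Bd.L1
import Pool.Agent.Work.MP_0d206b_gt.Bd.L2
import Pool.Agent.Work.MP_0d206b_gt.Bd.L7
import Pool.Agent.Work.MP_0d206b_gt.Bd.L3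
import Pool.Agent.Work.MP_0d206b_gt.Bd.L9
import Pool.Agent.Work.MP_0d206b_gt.Bd.L10
import Pool.Agent.Work.MP_0d206b_gt.Bd.L5
import Pool.Agent.Work.MP_0d206b_gt.Bd.L4

/-!
# MP_0d206b_gt, modules L and B: assembly (both flows, stable and unstable leaf spaces)
-/

set_option autoImplicit false

open Set Filter Topology

namespace Pool.Agent.Work.MP_0d206b_gt

namespace AsmL

theorem aCrit : Crit := I_Crit I_U03 I_U05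
theorem aAP0 : AP0 := I_AP0
theorem aAP1 : AP1 := I_AP1 aAP0
theorem aGS1 : GS1 := I_GS1
theorem aAP2 : AP2 := I_AP2 aAP0 aGS1
theorem aPG1 : PG1 := I_PG1
theorem aAP3 : AP3 := I_AP3 aAP0 aAP1 aAP2 aPG1
theorem aAP4 : AP4 := I_AP4 aAP0 aAP1 aAP2 aAP3 aGS1 aPG1
theorem aAP5 : AP5 := I_AP5 aAP3 aAP4 aAP0 aAP1 aPG1
theorem aGS3 : GS3 := I_GS3
theorem aAP6 : AP6 := I_AP6 aAP0 aAP1 aAP2 aAP3 aGS3 aGS1 aPG1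
theorem aAP7 : AP7 := I_AP7 aAP0 aAP1 aAP2 aAP3 aGS1 aPG1
theorem aAP8 : AP8 := I_AP8 aAP3 aAP5 aAP6 aAP7
theorem aL01 : L01 := I_L01
theorem aGL1 : GL1 := I_GL1
theorem aGL5 : GL5 := I_GL5
theorem aAR1 : AR1 := I_AR1
theorem aAR2 : AR2 := I_AR2 aAR1
theorem aAR3 : AR3 := I_AR3 aAR2
theorem aAR4 : AR4 := I_AR4
theorem aL02 : L02 := I_L02
theorem aPL1 : PL1 := I_PL1 aPG1
theorem aPL2 : PL2 := I_PL2 aPL1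
theorem aL03 : L03 := I_L03 aL01 aL02 aPL1 aPL2
theorem aL04 : L04 := I_L04 I_CP0s aAP0 aGS1 aGL1 aGL5 aAR3 aAR4 aL01 aL03
theorem aGL2 : GL2 := I_GL2
theorem aGL3 : GL3 := I_GL3
theorem aGL4 : GL4 := I_GL4 aGL3
theorem aL07A : L07A := I_L07A I_CP0s aPG1 aAP0 aAP1 aAP2 aGS1 aGL1 aGL2 aGL4 aL04
theorem aPL4 : PL4 := I_PL4 aPL1
theorem aPS3 : PS3 := I_PS3 aPG1 aPL1 aPL4
theorem aPS6 : PS6 := I_PS6
theorem aL0move : L0move := I_L0move I_CP0s aAR2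
theorem aL05 : L05 := I_L05 I_CP0s aGL5 aAR4 aL01 aL03 aL0move aPL1
theorem aGS2 : GS2 := I_GS2 aGS1
theorem aL0tube : L0tube := I_L0tube aPG1 aPL1 aGS2 aGL1 aGL2 aL05
theorem aL07R : L07R := I_L07R aPL1 aPS3 aPS6 aGL4 aL01 aL05 aL03 aAR4 aL0move aL0tube
theorem aL07 : L07 := I_L07 aL01 aL07A aL07R
theorem aOM : OM := I_OM I_Sep
theorem aLF : LF := I_LF
theorem aLN : LN := I_LN
theorem aAPL : APL := I_APL aGS1 aAP2 aAP3 aLN aPG1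
theorem aL06 : L06 := I_L06 I_Cech aLF aAR4 aPL2 aL01 aL03
theorem aL08 : L08 := I_L08 aPS3 aPS6 aPL1 aPL2 aGL3 aAR4 aAP1 aL01 aL03 aL04 aL06 aL07 aL0move
theorem aL09 : L09 := I_L09 aOM aLF aAPL aLN aPG1 aPL1 aGS1 aGL1 aL01 aL04 aL07 aL08
theorem aPL3 : PL3 := I_PL3 aPG1 aPL1
theorem aL010 : L010 :=
    I_L010 I_U05 aLN aPG1 aPL1 aPL2 aPL3 aGS1 aGL1 aAP1 aAP3 aL01 aL04 aL07 aL08 aL09
theorem aGM : GM := I_GM I_U05 aLN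
theorem aL011a : L011a := I_L011a aPS3 aPL1 aGS2 aGL1 aAP1 aL01 aL04 aL05
theorem aPG2 : PG2 := I_PG2
theorem aL011c : L011c := I_L011c aPG1 aPG2 aPL1 aPL2 aPL3 aPS3 aAR4 aAP1 aL01 aL03 aL04
theorem aL011 : L011 :=
    I_L011 aPG1 aPL1 aPS3 aPS6 aGS1 aGL1 aGL2 aGL4 aGM aL08 aL09 aL011a aL011c aL0move aL0tube
theorem aL012 : L012 := I_L012 aPG1 aPL1 aGS1 aGL1 aL01
theorem aL013 : L013 := I_L013 aCrit aAP8 aL01 aL04 aL07 aL09 aL010 aL011 aL012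
theorem aL014 : L014 := I_L014
theorem aL015 : L015 := I_L015 aL013 aL014
theorem aLA3 : LA3 := I_LA3
theorem aLA5 : LA5 := I_LA5
theorem aLA1 : LA1 := I_LA1 aPL1 aLA3 aLA5
theorem aLA2 : LA2 := I_LA2
theorem aRL1 : RL1 := I_RL1
theorem aRL2 : RL2 := I_RL2
theorem aLA6 : LA6 := I_LA6
theorem aPL5 : PL5 := I_PL5
theorem aLA7a : LA7a := I_LA7a aPL1 aPL2 aPL5 aLA1 aLA2 aLA3 aLA6
theorem aLA7 : LA7 := I_LA7 aRL1 aRL2 aLA6 aLA7a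
theorem aLA8a : LA8a := I_LA8a aPL1 aPL2 aLA1 aLA2 aLA3 aLA6
theorem aLA8 : LA8 := I_LA8 aRL1 aRL2 aLA6 aLA8a
theorem aLT : LT := I_LT aLA1 aLA2 aLA7 aLA8 aAR4
theorem aLA10 : LA10 := I_LA10 aLA7 aLT aAP0 aAR3 aAR4 aGL1 aGL2 aGL5 aGS1 I_CPAs
theorem aLA13 : LA13 := I_LA13 aLA2 aLA10
theorem aAP10 : AP10 := I_AP10 aAP0 aAP1 aAP2
theorem aLA11 : LA11 := I_LA11 aLA8 aAR3 aAR4 aGL5 I_CPAs
theorem aLA15b : LA15b := I_LA15b aGL1 aGL4 aGS1 aAR3 I_CPAs aLA11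
theorem aPS1 : PS1 := I_PS1 aPG1 aPL1 aPL2 aPL3
theorem aPS2 : PS2 := I_PS2 aPG1 aPL1 aPL2 aPL3 aPL4 aPS1
theorem aPS5 : PS5 := I_PS5 aPG1 aPL1 aPL3 aPS1 aPS2 aPS3
theorem aRL3 : RL3 := I_RL3
theorem aLA9 : LA9 := I_LA9 aLA1 aLA2 aLA7 aLA8 aLA6 aRL3 aPL1
theorem aLA12 : LA12 := I_LA12 aLA9 aAR2 aAR4 aGL5 I_CPAs aPL1
theorem aLA15c : LA15c := I_LA15c aPS3 aPS5 aGL1 aGL2 aGL4 aGS2 aAR2 I_CPAs aLA12 aPL1 aPS1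
theorem aLA15 : LA15 := I_LA15 aAP10 aLA1 aLA13 aLA15b aLA15c
theorem aLA16 : LA16 := I_LA16 aLA5 aLA11 aLA13 aLT aAP1 aGL3 aAR3 I_CPAs aLA15
theorem aXE : XE := I_XE aPL1 aPL5 aPS3 aLT aLA1 aLA2 aLA3 aLA11 aLA12 aLA13 aAP1 aGL1 aGS1 aGS2
theorem aLA14 : LA14 := I_LA14 I_Cech aLF aLT aLA1 aLA2 aPL1 aPL2
theorem aLA17i : LA17i := I_LA17i aXE aLA14 aPL1
theorem aPS7 : PS7 := I_PS7 aPS1 aPS2
theorem aLA17o : LA17o := I_LA17o aPS1 aPS7 aGL4 aAR2 I_CPAs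
theorem aLA17 : LA17 := I_LA17 aLA17i aLA17o aLA15
theorem aAP9 : AP9 := I_AP9 aAP1 aAP2 aAP3
theorem aLA18 : LA18 := I_LA18 aOM aLF aLA1 aLA13 aLA15 aLA16 aLA17 aAP9 aGL1 aGS1 aPG1
theorem aU05i : U05i := I_U05i I_U05
theorem aXR : XR := I_XR aPL1 aPL2 aPL3 aPL5 aLA3
theorem aLA19 : LA19 :=
    I_LA19 aPG1 aPL1 aU05i aAP3 aLA1 aLA5 aLA15 aLA16 aLA17 aLA18 aXR aGL1 aGS1 aLT aLA2
theorem aNSg : NSg := I_NSg aU05i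
theorem aXL : XL := I_XL aAP0 aAP1 aPL1
theorem aLA20 : LA20 :=
    I_LA20 aPG1 aPG2 aLA2 aLA5 aLA11 aLA13 aLA16 aLA18 aLT aNSg aXL aAP1 aGL1 aGL2 aGS1
theorem aLA21 : LA21 := I_LA21 aPG1 aPL1 aLA2 aLA5 aLA16 aLA17 aLA18 aLT aLA13 aNSg aXR aGL1 aGS1
theorem aNSh : NSh := I_NSh I_U03 aU05i
theorem aXT : XT := I_XT aPS1 aPS3 aPS5 aGL1 aGL2 aGL4 aGS2 aAR2 I_CPAs aLT aLA1 aLA2 aPL1 aPL2
theorem aLA22 : LA22 :=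
    I_LA22 aPG1 aPG2 aPL1 aLA1 aLA2 aLA3 aLA13 aLA17 aLA18 aLT aNSh aXE aXR aXT aXL aGL1 aGS1
theorem aLA23 : LA23 := I_LA23 aPG1 aPL1 aPL4 aLA1 aLA3 aLA5 aGL1 aGS1
theorem aLA24 : LA24 := I_LA24 aCrit aAP8 aLA1 aLA13 aLA15 aLA18 aLA19 aLA20 aLA21 aLA22 aLA23
theorem aZC : ZC := I_ZC
theorem aSJ : SJ := I_SJ
theorem aLA4 : LA4 := I_LA4 aPL5
theorem aSA : SA := I_SA aZC aSJ aLA3 aLA4 aLA5 aPL1 aPL5 aPG1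
theorem aLU0 : LU0 := I_LU0
theorem aLU1a : LU1a := I_LU1a aPL1 aPL2 aPL5 aLA2 aLA4 aLA5 aLU0
theorem aLU1 : LU1 := I_LU1 aRL1 aRL2 aLU0 aLU1a
theorem aNSl : NSl := I_NSl
theorem aLU2 : LU2 :=
    I_LU2 aPG1 aPL1 aSA aGL1 aGL2 aGS1 aGS3 aAR3 aAR4 I_CPAu aLA2 aLA3 aLU1 aNSl aAP0

end AsmL

/-- the stable leaf space of flow 0 -/
theorem L013_all : L013 := AsmL.aL013

/-- the unstable leaf space of flow 0 -/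
theorem L015_all : L015 := AsmL.aL015

/-- the stable leaf space of flow a -/
theorem LA24_all : LA24 := AsmL.aLA24

/-- three non separated unstable leaves of flow a -/
theorem LU2_all : LU2 := AsmL.aLU2

end Pool.Agent.Work.MP_0d206b_gt
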