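import Pool.Agent.Work.MP_0d206b_gt.Bd.StL

/-! Item PG3: the lattice is dense in the horizontal direction, by symmetry from PG2. -/

open Set Filter Topology
open scoped ContDiff

noncomputable section

namespace Pool.Agent.Work.MP_0d206b_gt

theorem XPG3.swap_mem {m : P2} (hm : m ∈ Gam) : ((m.2, m.1) : P2) ∈ Gam := by
  obtain ⟨i, j, rfl⟩ := hm
  refine ⟨i + j, -j, ?_⟩
  have h5 := Real.goldenRatio_add_goldenConj
  ext
  · simp only []
    push_cast
    linear_combination (j : ℝ) * h5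
  · simp only []
    push_cast
    linear_combination (j : ℝ) * h5

theorem I_PG3 (h1 : PG2) : PG3 := by
  refine ⟨fun a b Y hab => ?_, fun a b Y hab => ?_⟩
  · obtain ⟨m, hm, h2, h3, h4⟩ := h1.1 a b Y hab
    exact ⟨(m.2, m.1), XPG3.swap_mem hm, h2, h3, h4⟩
  · obtain ⟨m, hm, h2, h3, h4⟩ := h1.2 a b Y hab
    exact ⟨(m.2, m.1), XPG3.swap_mem hm, h2, h3, h4⟩

end Pool.Agent.Work.MP_0d206b_gt
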