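import Pool.Agent.Work.MP_0d206b_gt.Bd.StL

/-!
# MP_0d206b_gt, module L, item PS4: label curves are sigma-curves
-/

open Set Filter Topology
open scoped ContDiff

noncomputable section

namespace Pool.Agent.Work.MP_0d206b_gt

namespace XPS4

theorem sg_sq (s : Bool) : sg s * sg s = 1 := by
  cases s <;> simp [sg]

theorem alg (c u w : ℝ) (hw : w ^ 2 = c ^ 2 + 4 * u ^ 2) :
    ((-c + w) / 2) ^ 2 + c * ((-c + w) / 2) - u ^ 2 = 0 := by
  nlinarith

theorem tpos (c u : ℝ) (h : c < 0 ∨ u ≠ 0) :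
    0 < Real.sqrt (c ^ 2 + 4 * u ^ 2) ∧ 0 < (-c + Real.sqrt (c ^ 2 + 4 * u ^ 2)) / 2 := by
  have hpos : 0 < c ^ 2 + 4 * u ^ 2 := by
    rcases h with h | h
    · have := mul_pos_of_neg_of_neg h h
      nlinarith [sq_nonneg u]
    · have : 0 < u ^ 2 := by positivity
      nlinarith [sq_nonneg c]
  have hw : 0 < Real.sqrt (c ^ 2 + 4 * u ^ 2) := Real.sqrt_pos.mpr hpos
  refine ⟨hw, ?_⟩
  rcases h with h | h
  · linarith
  · have h1 : c < Real.sqrt (c ^ 2 + 4 * u ^ 2) := by
      apply Real.lt_sqrt_of_sq_lt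
      have : 0 < u ^ 2 := by positivity
      linarith
    linarith

theorem hasDeriv_t (c m x : ℝ) (hw : 0 < Real.sqrt (c ^ 2 + 4 * (x - m) ^ 2)) :
    HasDerivAt (fun y : ℝ => (-c + Real.sqrt (c ^ 2 + 4 * (y - m) ^ 2)) / 2)
      (2 * (x - m) / Real.sqrt (c ^ 2 + 4 * (x - m) ^ 2)) x := by
  have h0 : HasDerivAt (fun y : ℝ => c ^ 2 + 4 * (y - m) ^ 2) (8 * (x - m)) x := by
    have h := ((((hasDerivAt_id x).sub_const m).pow 2).const_mul 4).const_add (c ^ 2)
    refine h.congr_deriv ?_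
    simp
    ring
  have hne : c ^ 2 + 4 * (x - m) ^ 2 ≠ 0 := by
    intro h
    rw [h, Real.sqrt_zero] at hw
    exact lt_irrefl _ hw
  have h1 := ((h0.sqrt hne).const_add (-c)).div_const 2
  refine h1.congr_deriv ?_
  field_simp
  ring

end XPS4

open XPS4 in
theorem I_PS4 (h1 : PL1) (h2 : PL5) : PS4 := by
  intro D m hm s c x hx v
  have hu : c < 0 ∨ (x - m.1) ≠ 0 := by
    rcases hx with h | h
    · exact Or.inl h
    · exact Or.inr (sub_ne_zero.mpr h)
  obtain ⟨hw, ht⟩ := tpos c (x - m.1) hu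
  set w := Real.sqrt (c ^ 2 + 4 * (x - m.1) ^ 2) with hwdef
  have hw2 : w ^ 2 = c ^ 2 + 4 * (x - m.1) ^ 2 := by
    rw [hwdef]
    exact Real.sq_sqrt (by positivity)
  have halg := alg c (x - m.1) w hw2
  set t := (-c + w) / 2 with htdef
  have hvx : v x = (x - m.1, sg s * t) := rfl
  have hsg := sg_sq s
  refine ⟨?_, ?_, ?_⟩
  · -- derivative
    have hv : HasDerivAt v (1, sg s * (2 * (x - m.1) / w)) x := by
      have ha : HasDerivAt (fun y : ℝ => y - m.1) 1 x := (hasDerivAt_id x).sub_const m.1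
      have hb := (hasDeriv_t c m.1 x hw).const_mul (sg s)
      exact ha.prodMk hb
    have hPsi : HasFDerivAt D.Psi (fderiv ℝ D.Psi (v x)) (v x) :=
      (D.Psi_smooth.differentiable (by simp) (v x)).hasFDerivAt
    have hcomp := hPsi.comp_hasDerivAt x hv
    have hsnd : HasDerivAt (fun y => (D.Psi (v y)).2)
        ((fderiv ℝ D.Psi (v x)) (1, sg s * (2 * (x - m.1) / w))).2 x :=
      hcomp.snd
    have hadd := hsnd.const_add m.2
    have hfun : (fun y => (m + D.Psi (v y)).2) = fun y => m.2 + (D.Psi (v y)).2 := by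
      ext y; rfl
    rw [hfun]
    refine hadd.congr_deriv ?_
    have hnot : m + D.Psi (v x) ∉ D.Lam := by
      intro h
      exact h m hm (v x) rfl
    have hlin : D.lin (m + D.Psi (v x)) = v x := (((h1 D).2.2.2.1 m hm (v x))).1
    unfold DA.sigma
    rw [if_neg hnot, hlin, add_comm m, D.S_add _ m hm, ← D.dxPsi]
    have hvec : ((1, sg s * (2 * (x - m.1) / w)) : P2) =
        (1, 0) + (sg s * (2 * (x - m.1) / w)) • ((0, 1) : P2) := by
      ext <;> simp
    rw [hvec, map_add, map_smul]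
    have hS0 : S0 (v x) = sg s * (2 * (x - m.1) / w) := by
      rw [hvx]
      unfold S0 nsq
      simp only
      have h3 : (x - m.1) ^ 2 + (sg s * t) ^ 2 = t * w := by
        have : w = 2 * t + c := by rw [htdef]; ring
        rw [this, mul_pow, pow_two (sg s), hsg]
        linarith
      rw [h3]
      have ht' : t ≠ 0 := ht.ne'
      have hw' : w ≠ 0 := hw.ne'
      field_simp
    rw [hS0]
    unfold dx dy
    simp only [Prod.snd_add, Prod.smul_snd, smul_eq_mul]
    ring
  · rw [hvx]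
    show 0 < sg s * (sg s * t)
    rw [← mul_assoc, hsg, one_mul]
    exact ht
  · rw [hvx]
    unfold gmap
    simp only [Prod.smul_mk, smul_eq_mul]
    rw [← mul_assoc, hsg, one_mul, mul_pow, pow_two (sg s), hsg, one_mul]
    rw [div_eq_iff ht.ne']
    linarith

end Pool.Agent.Work.MP_0d206b_gt
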